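import Pool.Agent.KS6_86.FR.Compact
import Pool.Agent.KS6_86.FR.Digits

set_option autoImplicit false

namespace Pool.Agent.Results.MP_86f7a7_co.AllRanksLoss

open Filter Pool.Agent.Y336.PF H139R2.GP Pool.Agent.KS6_86.FR
open scoped Pointwise

universe u

/-- the choice of the parameters, for all large `n` -/
theorem numerics (D0 : ℕ) : ∀ᶠ n : ℕ in atTop, ∃ C1 : ℕ, D0 ≤ C1 ∧
    ((84 * C1 + 445 : ℕ) : ℝ) ^ 8 ≤ Real.logb 2 (n : ℝ) ∧
    64 * (((504 * C1 + 2696 : ℕ) + 1 : ℝ) * (84 * C1 + 445 : ℕ) + 1) ≤ Real.logb 2 (n : ℝ) ∧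
    ∀ K : ℝ, (5 : ℝ) ^ n ≤ K → K < 5 ^ (n + 1) →
      K ^ (1 / 10 ^ 5 * Real.log (Real.log K) ^ (1 / 8 : ℝ)) ≤ (2 : ℝ) ^ (C1 * n) := by
  have hx : Tendsto (fun n : ℕ => Real.logb 2 (n : ℝ) ^ (1 / 8 : ℝ)) atTop atTop :=
    (tendsto_rpow_atTop (by norm_num)).comp tendsto_logbN
  filter_upwards [eventually_ge_atTop 8, hx.eventually_ge_atTop (1000000 + 1000 * D0),
    tendsto_logbN.eventually_ge_atTop 1] with n hn hxn hℓ1
  have hn8 : (8 : ℝ) ≤ n := by exact_mod_cast hn
  have hn0 : (0 : ℝ) < n := by linarith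
  set ℓ : ℝ := Real.logb 2 (n : ℝ) with hℓ
  set x : ℝ := ℓ ^ (1 / 8 : ℝ) with hxdef
  have hℓ0 : 0 ≤ ℓ := by linarith
  have hx8 : x ^ 8 = ℓ := by
    rw [hxdef, ← Real.rpow_natCast, ← Real.rpow_mul hℓ0]
    norm_num
  have hD0 : (0 : ℝ) ≤ D0 := by positivity
  have hx1 : 1000000 ≤ x := by linarith
  have hx0 : 0 < x := by linarith
  set C1 : ℕ := ⌊x / 1000⌋₊ with hC1
  have hC1le : (C1 : ℝ) ≤ x / 1000 := Nat.floor_le (by positivity)
  have hC1lt : x / 1000 < C1 + 1 := Nat.lt_floor_add_one _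
  have h1 : (84 * C1 + 445 : ℝ) ≤ x := by linarith
  have h2 : (504 * C1 + 2697 : ℝ) ≤ x := by linarith
  have hC0 : (0 : ℝ) ≤ C1 := by positivity
  refine ⟨C1, ?_, ?_, ?_, ?_⟩
  · have : (D0 : ℝ) ≤ C1 := by linarith
    exact_mod_cast this
  · rw [← hx8]
    push_cast
    exact pow_le_pow_left₀ (by positivity) h1 8
  · rw [← hx8]
    push_cast
    have h3 : (504 * (C1 : ℝ) + 2696 + 1) * (84 * C1 + 445) ≤ x * x := by
      have : (504 * (C1 : ℝ) + 2696 + 1) ≤ x := by linarith
      gcongr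
    have h4 : 1 ≤ x * x := by nlinarith
    have h5 : 128 * (x * x) ≤ x ^ 8 := by
      have h6 : (128 : ℝ) ≤ x ^ 6 := by
        have h7 : (1000000 : ℝ) ^ 6 ≤ x ^ 6 := pow_le_pow_left₀ (by norm_num) hx1 6
        refine le_trans ?_ h7
        norm_num
      calc 128 * (x * x) ≤ x ^ 6 * (x * x) := by gcongr
        _ = x ^ 8 := by ring
    linarith
  · intro K hK1 hK2
    have hK0 : 0 < K := lt_of_lt_of_le (by positivity) hK1
    have hl2 := Real.log_two_gt_d9
    have hl2' := Real.log_two_lt_d9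
    have hlog5 : (1 : ℝ) ≤ Real.log 5 := by
      rw [Real.le_log_iff_exp_le (by norm_num)]
      have := Real.exp_one_lt_d9
      linarith
    have hlog5' : Real.log 5 ≤ 17 / 10 := by
      have h3 : Real.log (5 ^ 3) ≤ Real.log (2 ^ 7) := Real.log_le_log (by norm_num) (by norm_num)
      rw [Real.log_pow, Real.log_pow] at h3
      push_cast at h3
      linarith
    have hlK1 : (n : ℝ) ≤ Real.log K := by
      have h3 : Real.log ((5 : ℝ) ^ n) ≤ Real.log K := Real.log_le_log (by positivity) hK1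
      rw [Real.log_pow] at h3
      nlinarith
    have hlK2 : Real.log K ≤ 2 * n := by
      have h3 : Real.log K ≤ Real.log ((5 : ℝ) ^ (n + 1)) := Real.log_le_log hK0 hK2.le
      rw [Real.log_pow] at h3
      push_cast at h3
      nlinarith
    have hlK : 0 < Real.log K := by linarith
    have hℓn : Real.log n = ℓ * Real.log 2 := by
      rw [hℓ]; unfold Real.logb; field_simp
    have hll2 : Real.log (Real.log K) ≤ 2 * ℓ := by
      have h3 : Real.log (Real.log K) ≤ Real.log (2 * n) := Real.log_le_log hlK hlK2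
      rw [Real.log_mul (by norm_num) hn0.ne', hℓn] at h3
      nlinarith
    have hll0 : 0 ≤ Real.log (Real.log K) := Real.log_nonneg (by linarith)
    have hroot : Real.log (Real.log K) ^ (1 / 8 : ℝ) ≤ 2 * x := by
      calc Real.log (Real.log K) ^ (1 / 8 : ℝ) ≤ (2 * ℓ) ^ (1 / 8 : ℝ) :=
            Real.rpow_le_rpow hll0 hll2 (by norm_num)
        _ = 2 ^ (1 / 8 : ℝ) * x := by rw [Real.mul_rpow (by norm_num) hℓ0]
        _ ≤ 2 ^ (1 : ℝ) * x := by
          gcongr
          · norm_num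
          · norm_num
        _ = 2 * x := by norm_num
    have he2 : (2 : ℝ) ^ (C1 * n) = Real.exp (Real.log 2 * ((C1 : ℝ) * n)) := by
      rw [← Real.rpow_natCast (2 : ℝ) (C1 * n), Real.rpow_def_of_pos (by norm_num : (0 : ℝ) < 2)]
      push_cast
      rfl
    rw [Real.rpow_def_of_pos hK0, he2]
    apply Real.exp_le_exp.2
    have hC1ge : x / 2000 ≤ C1 := by linarith
    calc Real.log K * (1 / 10 ^ 5 * Real.log (Real.log K) ^ (1 / 8 : ℝ))
        ≤ (2 * n) * (1 / 10 ^ 5 * (2 * x)) := by gcongr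
      _ = 8 / 100 * ((x / 2000) * n) := by ring
      _ ≤ 8 / 100 * ((C1 : ℝ) * n) := by gcongr
      _ ≤ Real.log 2 * ((C1 : ℝ) * n) := by
        gcongr
        linarith

/-- **Failure of Freiman-Ruzsa approximation by progressions of arbitrary rank, with loss
`K ^ (c (log log K) ^ (1 / 8))`, for every large `K`, in every group which has an element of large
order.**

There are `c > 0` and `K₀` such that for every real `K ≥ K₀` there is `M` with the following
property.  Let `x` be an element of an abelian group `G` whose order is infinite or greater than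
`M` (for example a nonzero element of a torsion-free group, such as `1 ∈ ℤ`).  Then there is a
finite nonempty set `A` of multiples of `x` such that `|A + A| ≤ K |A|`, but
`|A ∩ P| ≤ K ^ (-c (log log K) ^ (1 / 8)) * max |A| |P|`
for every set `P = {a + ∑_{i ∈ S} g_i : S ⊆ ι}` of the subset sums of a finite family `(g_i)` of
elements of `G`, and for every progression `P = {a + ∑ k_i v_i : 0 ≤ k_i < N_i}` of `G`, of any
rank `d`, proper or not. -/
theorem result : ∃ c : ℝ, 0 < c ∧ ∃ K₀ : ℝ, ∀ K : ℝ, K₀ ≤ K → ∃ M : ℕ,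
    ∀ (G : Type u) [AddCommGroup G] (x : G), (∀ m : ℕ, 0 < m → m ≤ M → m • x ≠ 0) →
    ∃ A : Set G, A ⊆ (AddSubgroup.zmultiples x : Set G) ∧ A.Finite ∧ A.Nonempty ∧
      ((A + A).ncard : ℝ) ≤ K * A.ncard ∧
      (∀ (ι : Type) [Finite ι] (a : G) (g : ι → G) (P : Set G),
        P = {y | ∃ S : Finset ι, y = a + ∑ i ∈ S, g i} →
        ((A ∩ P).ncard : ℝ) ≤ K ^ (-(c * Real.log (Real.log K) ^ (1 / 8 : ℝ))) *
          max (A.ncard : ℝ) P.ncard) ∧
      (∀ (d : ℕ) (a : G) (v : Fin d → G) (N : Fin d → ℕ) (P : Set G),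
        P = {y | ∃ k : Fin d → ℕ, (∀ i, k i < N i) ∧ y = a + ∑ i, k i • v i} →
        ((A ∩ P).ncard : ℝ) ≤ K ^ (-(c * Real.log (Real.log K) ^ (1 / 8 : ℝ))) *
          max (A.ncard : ℝ) P.ncard) := by
  classical
  obtain ⟨D0, hev⟩ := main_A.{u}
  obtain ⟨n₀, hn₀⟩ := eventually_atTop.1 (hev.and (numerics D0))
  refine ⟨1 / 10 ^ 5, by norm_num, 5 ^ (n₀ + 1), ?_⟩
  intro K hK
  have hK1 : (1 : ℝ) ≤ K := le_trans (one_le_pow₀ (by norm_num)) hK
  obtain ⟨n, hnK, hKn⟩ := exists_nat_pow_near hK1 (show (1 : ℝ) < 5 by norm_num)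
  have hnn : n₀ ≤ n := by
    have h1 : (5 : ℝ) ^ (n₀ + 1) < 5 ^ (n + 1) := lt_of_le_of_lt hK hKn
    have h2 := (pow_lt_pow_iff_right₀ (by norm_num : (1 : ℝ) < 5)).1 h1
    omega
  obtain ⟨hmainn, C1, hC1, hκL, htL, hrate'⟩ := hn₀ n hnn
  have hrate := hrate' K hnK hKn
  obtain ⟨L, hL, hmain⟩ := hmainn C1 hC1 hκL htL
  obtain ⟨B, hcomp⟩ := compact_cubes.{u} L ((2 : ℝ) ^ (C1 * n)) ((H460.boxSet L).ncard : ℝ)
    (by positivity) (fun G _ e he ι _ g a A' hA1 hA2 => hmain G e he ι g a A'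
      (fun s hs i => hA1 s hs i) hA2)
  set B' : ℕ := max B (2 * 2 ^ (n ^ 2)) with hB'
  refine ⟨(2 * B' + 1) ^ n, ?_⟩
  intro G _ x hx
  set e : L →+ G := (dig n B' x).comp L.subtype with he'
  have heinj' : ∀ y : L, (∀ i, |(y : Fin n → ℤ) i| ≤ (B' : ℤ)) → e y = 0 → y = 0 := by
    intro y hy h
    exact Subtype.ext (dig_inj hx y hy h)
  have heinj : Set.InjOn e (AA L) := by
    intro y hy z hz h
    have h1 : y - z = 0 := by
      apply heinj'
      · intro i
        have h2 := hy i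
        have h3 := hz i
        have h4 : |((y - z : L) : Fin n → ℤ) i| ≤ |(y : Fin n → ℤ) i| + |(z : Fin n → ℤ) i| :=
          abs_sub _ _
        have h5 : (2 * 2 ^ (n ^ 2) : ℤ) ≤ (B' : ℤ) := by
          have : 2 * 2 ^ (n ^ 2) ≤ B' := le_max_right _ _
          exact_mod_cast this
        linarith
      · rw [map_sub, h, sub_self]
    exact sub_eq_zero.1 h1
  set A : Set G := e '' (AA L) with hAA
  have hAfin : A.Finite := (AA_finite L).image e
  have hAne : A.Nonempty := (AA_nonempty L).image e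
  have hAc : A.ncard = (AA L).ncard := heinj.ncard_image
  have hK0 : 0 < K := by linarith
  have hcube : ∀ (ι : Type) [Finite ι] (a : G) (g : ι → G) (P : Set G),
        P = {x | ∃ S : Finset ι, x = a + ∑ i ∈ S, g i} →
        ((A ∩ P).ncard : ℝ) ≤ K ^ (-(1 / 10 ^ 5 * Real.log (Real.log K) ^ (1 / 8 : ℝ))) *
          max (A.ncard : ℝ) P.ncard := by
    intro ι _ a g P hP
    obtain ⟨_⟩ := nonempty_fintype ι
    have hPc : P.ncard = (sums g Finset.univ).card := by
      have h1 : P = (((sums g Finset.univ).image (fun y => a + y) : Finset G) : Set G) := by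
        ext x
        rw [hP, Finset.mem_coe, Finset.mem_image]
        constructor
        · rintro ⟨S, rfl⟩
          exact ⟨∑ i ∈ S, g i, (mem_sums _ _ _).2 ⟨S, Finset.subset_univ _, rfl⟩, rfl⟩
        · rintro ⟨y, hy, rfl⟩
          obtain ⟨S, _, rfl⟩ := (mem_sums _ _ _).1 hy
          exact ⟨S, rfl⟩
      rw [h1, Set.ncard_coe_finset, Finset.card_image_of_injective _ (add_right_injective _)]
    set A' : Finset L := (AA_finite L).toFinset.filter (fun y => e y ∈ P) with hA'
    have hA'AA : ∀ s ∈ A', s ∈ AA L := fun s hs =>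
      (AA_finite L).mem_toFinset.1 (Finset.mem_filter.1 hs).1
    have hA'c : (A ∩ P).ncard = A'.card := by
      have h1 : A ∩ P = ((A'.image e : Finset G) : Set G) := by
        ext x
        rw [Finset.mem_coe, Finset.mem_image, hAA]
        constructor
        · rintro ⟨⟨y, hy, rfl⟩, hx⟩
          exact ⟨y, Finset.mem_filter.2 ⟨(AA_finite L).mem_toFinset.2 hy, hx⟩, rfl⟩
        · rintro ⟨y, hy, rfl⟩
          obtain ⟨h2, h3⟩ := Finset.mem_filter.1 hy
          exact ⟨⟨y, (AA_finite L).mem_toFinset.1 h2, rfl⟩, h3⟩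
      rw [h1, Set.ncard_coe_finset, Finset.card_image_of_injOn]
      intro y hy z hz h
      exact heinj (hA'AA y hy) (hA'AA z hz) h
    have h := hcomp G e (fun y hy h => heinj' y (fun i => (hy i).trans (by
        have : B ≤ B' := le_max_left _ _
        exact_mod_cast this)) h) ι g a A' hA'AA (fun s hs => by
        have h2 := (Finset.mem_filter.1 hs).2
        rw [hP] at h2
        exact h2)
    rw [hA'c, hAc, AA_ncard, hPc, Real.rpow_neg hK0.le, ← div_eq_inv_mul,
      le_div_iff₀ (Real.rpow_pos_of_pos hK0 _)]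
    refine le_trans ?_ h
    gcongr
  refine ⟨A, ?_, hAfin, hAne, ?_, hcube, ?_⟩
  · rintro _ ⟨y, _, rfl⟩
    exact dig_mem n B' x y
  · have h1 : A + A = e '' (AA L + AA L) := by
      rw [hAA, Set.image_add]
    have h2 : (AA L + AA L).Finite := (AA_finite L).add (AA_finite L)
    rw [h1, hAc]
    calc ((e '' (AA L + AA L)).ncard : ℝ) ≤ ((AA L + AA L).ncard : ℝ) := by
          exact_mod_cast Set.ncard_image_le h2
      _ ≤ ((5 ^ n * (AA L).ncard : ℕ) : ℝ) := by
          exact_mod_cast doubling L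
      _ = (5 : ℝ) ^ n * (AA L).ncard := by push_cast; ring
      _ ≤ K * (AA L).ncard := by gcongr
  · intro d a v N P hP
    by_cases hN : ∀ i, 0 < N i
    · refine hcube (Idx N) a (fun p => v p.1) P ?_
      rw [hP]
      ext x
      exact prog_eq a v N hN x
    · push Not at hN
      obtain ⟨i, hi⟩ := hN
      have hPe : P = ∅ := by
        rw [hP]
        ext x
        simp only [Set.mem_ofPred_eq, Set.mem_empty_iff_false, iff_false]
        rintro ⟨k, hk, _⟩
        have := hk i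
        omega
      rw [hPe, Set.inter_empty, Set.ncard_empty]
      push_cast
      positivity

end Pool.Agent.Results.MP_86f7a7_co.AllRanksLoss
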