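import Pool.Agent.KS6_86.FR.CompactP
import Pool.Agent.KS6_86.FR.Digits
import Pool.Agent.KS6_86.FR.Upper

set_option autoImplicit false

namespace Pool.Agent.Results.MP_86f7a7_co.SharpLogRank

open Filter Pool.Agent.Y336.PF H139R2.GP Pool.Agent.KS6_86.FR
open scoped Pointwise

universe u

/-- the choice of the parameters -/
theorem numerics {n D0 : ℕ} (hn : 8 ≤ n) (hD0 : 8192 ≤ D0) {K D : ℝ}
    (h1 : (5 : ℝ) ^ n ≤ K) (h2 : K < 5 ^ (n + 1)) (hD1 : 1 ≤ D)
    (hD : D ≤ 1 / (160000 * (D0 + 3)) * Real.log (Real.log K) ^ (1 / 8 : ℝ)) :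
    ∃ κ C1 t : ℕ, D0 ≤ κ ∧ t = 8 * (C1 + (20 * C1 + 100) + 12) ∧
      (κ : ℝ) ^ 8 ≤ Real.logb 2 (n : ℝ) ∧
      64 * ((t + 1) * κ + 1 : ℝ) ≤ Real.logb 2 (n : ℝ) ∧
      (2 : ℝ) ^ t ≤ Real.log K ^ (1 / D) ∧ D * Real.log K ≤ κ * n ∧
      K ^ ((1 / (160000 * (D0 + 3))) / D * Real.log (Real.log K)) ≤ (2 : ℝ) ^ (C1 * n) := by
  have hn8 : (8 : ℝ) ≤ n := by exact_mod_cast hn
  have hn0 : (0 : ℝ) < n := by linarith
  have hK0 : 0 < K := lt_of_lt_of_le (by positivity) h1
  have hD0' : (8192 : ℝ) ≤ D0 := by exact_mod_cast hD0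
  have hDpos : 0 < D := by linarith
  have hl2 := Real.log_two_gt_d9
  have hl2' := Real.log_two_lt_d9
  have hlog5 : (1 : ℝ) ≤ Real.log 5 := by
    rw [Real.le_log_iff_exp_le (by norm_num)]
    have := Real.exp_one_lt_d9
    linarith
  have hlog5' : Real.log 5 ≤ 17 / 10 := by
    have h3 : Real.log (5 ^ 3) ≤ Real.log (2 ^ 7) := Real.log_le_log (by norm_num) (by norm_num)
    rw [Real.log_pow, Real.log_pow] at h3
    push_cast at h3
    linarith
  have hK1 : (n : ℝ) ≤ Real.log K := by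
    have h3 : Real.log ((5 : ℝ) ^ n) ≤ Real.log K := Real.log_le_log (by positivity) h1
    rw [Real.log_pow] at h3
    nlinarith
  have hK2 : Real.log K ≤ 2 * n := by
    have h3 : Real.log K ≤ Real.log ((5 : ℝ) ^ (n + 1)) := Real.log_le_log hK0 h2.le
    rw [Real.log_pow] at h3
    push_cast at h3
    nlinarith
  have hlK : 0 < Real.log K := by linarith
  set ℓ : ℝ := Real.logb 2 (n : ℝ) with hℓ
  have hℓn : Real.log n = ℓ * Real.log 2 := by
    rw [hℓ]; unfold Real.logb; field_simp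
  have hll1 : ℓ * Real.log 2 ≤ Real.log (Real.log K) := by
    rw [← hℓn]; exact Real.log_le_log hn0 hK1
  have hℓ3 : 3 ≤ ℓ := by
    rw [hℓ, Real.le_logb_iff_rpow_le (by norm_num) hn0]
    norm_num
    exact hn
  have hll2 : Real.log (Real.log K) ≤ 2 * (ℓ * Real.log 2) := by
    have h3 : Real.log (Real.log K) ≤ Real.log (2 * n) := Real.log_le_log hlK hK2
    rw [Real.log_mul (by norm_num) hn0.ne', hℓn] at h3
    nlinarith
  set ll : ℝ := Real.log (Real.log K) with hll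
  have hll0 : 0 ≤ ll := by
    have : 0 ≤ ℓ * Real.log 2 := by positivity
    linarith
  set x : ℝ := ll ^ (1 / 8 : ℝ) with hx
  have hx0 : 0 ≤ x := Real.rpow_nonneg hll0 _
  have hx8 : x ^ 8 = ll := by
    rw [hx, ← Real.rpow_natCast, ← Real.rpow_mul hll0]
    norm_num
  set κ : ℕ := max D0 ⌈2 * D⌉₊ with hκ
  have hκD : 2 * D ≤ κ := by
    refine (Nat.le_ceil _).trans ?_
    exact_mod_cast le_max_right _ _
  have hκ0 : D0 ≤ κ := le_max_left _ _
  have hκ8192 : (8192 : ℝ) ≤ κ := by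
    have : (D0 : ℝ) ≤ κ := by exact_mod_cast hκ0
    linarith
  have hκle : (κ : ℝ) ≤ (D0 + 3) * D := by
    rw [hκ]
    push_cast
    apply max_le
    · nlinarith
    · have h3 : ((⌈2 * D⌉₊ : ℕ) : ℝ) < 2 * D + 1 := Nat.ceil_lt_add_one (by linarith)
      nlinarith
  have hκ160 : 160000 * (κ : ℝ) ≤ x := by
    have h3 : (D0 + 3 : ℝ) * D ≤ (D0 + 3) * (1 / (160000 * (D0 + 3)) * x) := by gcongr
    have h4 : (D0 + 3 : ℝ) * (1 / (160000 * (D0 + 3)) * x) = x / 160000 := by field_simp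
    rw [h4] at h3
    have h5 := hκle.trans h3
    rw [le_div_iff₀ (by norm_num)] at h5
    linarith
  have hκpos : (0 : ℝ) < κ := by linarith
  have hκ8 : 2 * (κ : ℝ) ^ 8 ≤ ℓ := by
    have h3 : (160000 * (κ : ℝ)) ^ 8 ≤ x ^ 8 := pow_le_pow_left₀ (by positivity) hκ160 8
    rw [hx8] at h3
    have h4 : (160000 * (κ : ℝ)) ^ 8 = 160000 ^ 8 * (κ : ℝ) ^ 8 := by ring
    rw [h4] at h3
    have h5 : 0 ≤ (κ : ℝ) ^ 8 := by positivity
    have h6 : ll ≤ 2 * ℓ := by
      refine hll2.trans ?_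
      nlinarith
    linarith
  have hκ7 : 8192 ^ 7 * (κ : ℝ) ≤ (κ : ℝ) ^ 8 := by
    have h3 : (8192 : ℝ) ^ 7 ≤ (κ : ℝ) ^ 7 := pow_le_pow_left₀ (by norm_num) hκ8192 7
    calc (8192 : ℝ) ^ 7 * κ ≤ (κ : ℝ) ^ 7 * κ := by gcongr
      _ = (κ : ℝ) ^ 8 := by ring
  have hκℓ : 8192 ^ 7 * (κ : ℝ) ≤ ℓ := by
    have h5 : 0 ≤ (κ : ℝ) ^ 8 := by positivity
    linarith
  set C1 : ℕ := ⌊ℓ / (20000 * κ)⌋₊ with hC1
  have hC1le : (C1 : ℝ) ≤ ℓ / (20000 * κ) := Nat.floor_le (by positivity)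
  have hC1lt : ℓ / (20000 * κ) < C1 + 1 := Nat.lt_floor_add_one _
  have hC1κ : (C1 : ℝ) * (20000 * κ) ≤ ℓ := by
    rwa [le_div_iff₀ (by positivity)] at hC1le
  have hC1D : (C1 : ℝ) * (40000 * D) ≤ ℓ := by
    refine le_trans ?_ hC1κ
    have : (40000 : ℝ) * D ≤ 20000 * κ := by linarith
    gcongr
  refine ⟨κ, C1, 8 * (C1 + (20 * C1 + 100) + 12), hκ0, rfl, ?_, ?_, ?_, ?_, ?_⟩
  · have h5 : 0 ≤ (κ : ℝ) ^ 8 := by positivity
    linarith
  · push_cast
    nlinarith
  · -- the length of the short sides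
    have hn1 : (1 : ℝ) < Real.log K := by linarith
    rw [Real.rpow_def_of_pos hlK, ← hll]
    have e1 : (2 : ℝ) ^ (8 * (C1 + (20 * C1 + 100) + 12)) =
        Real.exp (Real.log 2 * (8 * (C1 + (20 * C1 + 100) + 12))) := by
      rw [← Real.rpow_natCast, Real.rpow_def_of_pos (by norm_num)]
      push_cast
      rfl
    rw [e1]
    apply Real.exp_le_exp.2
    rw [mul_one_div, le_div_iff₀ hDpos]
    refine le_trans ?_ hll1
    have h3 : (8 * (C1 + (20 * C1 + 100) + 12) : ℝ) * D ≤ ℓ := by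
      have h4 : 8192 ^ 7 * (2 * D) ≤ ℓ := by
        refine le_trans ?_ hκℓ
        gcongr
      nlinarith
    nlinarith
  · calc D * Real.log K ≤ D * (2 * n) := by gcongr
      _ = (2 * D) * n := by ring
      _ ≤ κ * n := by gcongr
  · have he2 : (2 : ℝ) ^ (C1 * n) = Real.exp (Real.log 2 * ((C1 : ℝ) * n)) := by
      rw [← Real.rpow_natCast (2 : ℝ) (C1 * n), Real.rpow_def_of_pos (by norm_num : (0 : ℝ) < 2)]
      push_cast
      rfl
    rw [Real.rpow_def_of_pos hK0, he2]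
    apply Real.exp_le_exp.2
    have hC1ge : ℓ / (40000 * κ) ≤ C1 := by
      have h3 : 1 ≤ ℓ / (40000 * κ) := by
        rw [le_div_iff₀ (by positivity)]
        linarith
      have h4 : ℓ / (20000 * κ) = ℓ / (40000 * κ) + ℓ / (40000 * κ) := by
        field_simp
        norm_num
      linarith
    have h5 : ℓ / (40000 * ((D0 + 3) * D)) ≤ C1 := by
      refine le_trans ?_ hC1ge
      apply div_le_div_of_nonneg_left (by linarith) (by positivity)
      gcongr
    calc Real.log K * (1 / (160000 * (D0 + 3)) / D * ll)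
        ≤ (2 * n) * (1 / (160000 * (D0 + 3)) / D * (2 * (ℓ * Real.log 2))) := by gcongr
      _ = Real.log 2 * (ℓ / (40000 * ((D0 + 3) * D)) * n) := by
        field_simp
        ring
      _ ≤ Real.log 2 * ((C1 : ℝ) * n) := by gcongr

/-- **The exact order of the loss in the Freiman-Ruzsa problem for progressions of rank
`O(log K)` is `K ^ (Θ(log log K))`, in every nontrivial torsion-free group.**

Upper bound: if `A` is a finite nonempty subset of a torsion-free abelian group and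
`|A + A| ≤ K |A|`, `K ≥ 16`, then there is a proper progression `P` of rank at most `C log K`
with `|P| ≤ |A|` and `|A ∩ P| ≥ K ^ (-C log log K) |A|`.

Lower bound: there are `c > 0` and `K₀` such that for every `K ≥ K₀`, for every
`1 ≤ D ≤ c (log log K) ^ (1 / 8)` and for every nontrivial torsion-free abelian group `Z`, for
example `Z = ℤ`, there is a finite nonempty set `A ⊆ Z` with `|A + A| ≤ K |A|` and
`|A ∩ P| ≤ K ^ (-(c / D) log log K) * max |A| |P|`
for every progression `P = {a + ∑ k_i v_i : 0 ≤ k_i < N_i}` of `Z`, proper or not, which has at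
most `D log K` sides `N_i` with `2 ≤ N_i ≤ (log K) ^ (1 / D)`; in particular for every progression
of rank at most `D log K`. -/
theorem result :
    (∃ C : ℝ, 0 < C ∧ ∀ (Z : Type u) [AddCommGroup Z],
      (∀ (n : ℕ) (x : Z), n ≠ 0 → n • x = 0 → x = 0) →
      ∀ (K : ℝ) (A : Set Z), 16 ≤ K → A.Finite → A.Nonempty →
        ((A + A).ncard : ℝ) ≤ K * A.ncard →
        ∃ (d : ℕ) (a : Z) (v : Fin d → Z) (N : Fin d → ℕ) (P : Set Z),
          P = {x | ∃ k : Fin d → ℕ, (∀ i, k i < N i) ∧ x = a + ∑ i, k i • v i} ∧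
          (d : ℝ) ≤ C * Real.log K ∧ (∀ i, 1 ≤ N i) ∧
          (∀ k l : Fin d → ℕ, (∀ i, k i < N i) → (∀ i, l i < N i) →
            ∑ i, k i • v i = ∑ i, l i • v i → k = l) ∧
          P.ncard ≤ A.ncard ∧
          K ^ (-(C * Real.log (Real.log K))) * A.ncard ≤ ((A ∩ P).ncard : ℝ)) ∧
    (∃ c : ℝ, 0 < c ∧ ∃ K₀ : ℝ, ∀ K : ℝ, K₀ ≤ K → ∀ D : ℝ, 1 ≤ D →
      D ≤ c * Real.log (Real.log K) ^ (1 / 8 : ℝ) →
      ∀ (Z : Type u) [AddCommGroup Z] [Nontrivial Z],
        (∀ (n : ℕ) (x : Z), n ≠ 0 → n • x = 0 → x = 0) →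
        ∃ A : Set Z, A.Finite ∧ A.Nonempty ∧ ((A + A).ncard : ℝ) ≤ K * A.ncard ∧
        ∀ (d : ℕ) (a : Z) (v : Fin d → Z) (N : Fin d → ℕ) (P : Set Z),
          P = {x | ∃ k : Fin d → ℕ, (∀ i, k i < N i) ∧ x = a + ∑ i, k i • v i} →
          ({i : Fin d | 2 ≤ N i ∧ (N i : ℝ) ≤ Real.log K ^ (1 / D)}.ncard : ℝ) ≤
            D * Real.log K →
          ((A ∩ P).ncard : ℝ) ≤ K ^ (-(c / D * Real.log (Real.log K))) *
            max (A.ncard : ℝ) P.ncard) := by
  classical
  refine ⟨⟨64000, by norm_num, fun Z _ htf K A hK hf hA hAK => upper htf hK hf hA hAK⟩, ?_⟩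
  obtain ⟨D0, hD0, hev⟩ := main_W.{u}
  obtain ⟨n₀, hn₀⟩ := eventually_atTop.1 (hev.and (eventually_ge_atTop 8))
  refine ⟨1 / (160000 * (D0 + 3)), by positivity, 5 ^ (n₀ + 1), ?_⟩
  intro K hK D hD1 hD
  have hK1 : (1 : ℝ) ≤ K := le_trans (one_le_pow₀ (by norm_num)) hK
  obtain ⟨n, hnK, hKn⟩ := exists_nat_pow_near hK1 (show (1 : ℝ) < 5 by norm_num)
  have hnn : n₀ ≤ n := by
    have h1 : (5 : ℝ) ^ (n₀ + 1) < 5 ^ (n + 1) := lt_of_le_of_lt hK hKn
    have h2 := (pow_lt_pow_iff_right₀ (by norm_num : (1 : ℝ) < 5)).1 h1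
    omega
  obtain ⟨hmainn, hn8⟩ := hn₀ n hnn
  obtain ⟨κ, C1, t, hκ, ht, hκL, htL, ht2, hDκ, hrate⟩ := numerics hn8 hD0 hnK hKn hD1 hD
  obtain ⟨L, hL, hmain⟩ := hmainn κ C1 t hκ ht hκL htL
  obtain ⟨B, hcomp⟩ := compact_progs.{u} L ((2 : ℝ) ^ (C1 * n)) ((H460.boxSet L).ncard : ℝ)
    (by positivity) t (κ * n) (fun G _ e he d v N hN hs a A' hA1 hA2 =>
      hmain G e he d v N hN hs a A' (fun s hs i => hA1 s hs i) hA2)
  intro Z _ _ htf
  obtain ⟨x, hx0⟩ := exists_ne (0 : Z)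
  set B' : ℕ := max B (2 * 2 ^ (n ^ 2)) with hB'
  have hx : ∀ m : ℕ, 0 < m → m ≤ (2 * B' + 1) ^ n → m • x ≠ 0 :=
    fun m hm _ h => hx0 (htf m x hm.ne' h)
  set e : L →+ Z := (dig n B' x).comp L.subtype with he'
  have heinj' : ∀ y : L, (∀ i, |(y : Fin n → ℤ) i| ≤ (B' : ℤ)) → e y = 0 → y = 0 := by
    intro y hy h
    exact Subtype.ext (dig_inj hx y hy h)
  have heinj : Set.InjOn e (AA L) := by
    intro y hy z hz h
    have h1 : y - z = 0 := by
      apply heinj'
      · intro i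
        have h2 := hy i
        have h3 := hz i
        have h4 : |((y - z : L) : Fin n → ℤ) i| ≤ |(y : Fin n → ℤ) i| + |(z : Fin n → ℤ) i| :=
          abs_sub _ _
        have h5 : (2 * 2 ^ (n ^ 2) : ℤ) ≤ (B' : ℤ) := by
          have : 2 * 2 ^ (n ^ 2) ≤ B' := le_max_right _ _
          exact_mod_cast this
        linarith
      · rw [map_sub, h, sub_self]
    exact sub_eq_zero.1 h1
  set A : Set Z := e '' (AA L) with hAA
  have hAfin : A.Finite := (AA_finite L).image e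
  have hAne : A.Nonempty := (AA_nonempty L).image e
  have hAc : A.ncard = (AA L).ncard := heinj.ncard_image
  have hK0 : 0 < K := by linarith
  refine ⟨A, hAfin, hAne, ?_, ?_⟩
  · have h1 : A + A = e '' (AA L + AA L) := by
      rw [hAA, Set.image_add]
    have h2 : (AA L + AA L).Finite := (AA_finite L).add (AA_finite L)
    rw [h1, hAc]
    calc ((e '' (AA L + AA L)).ncard : ℝ) ≤ ((AA L + AA L).ncard : ℝ) := by
          exact_mod_cast Set.ncard_image_le h2
      _ ≤ ((5 ^ n * (AA L).ncard : ℕ) : ℝ) := by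
          exact_mod_cast doubling L
      _ = (5 : ℝ) ^ n * (AA L).ncard := by push_cast; ring
      _ ≤ K * (AA L).ncard := by gcongr
  · intro d a v N P hP hshort
    by_cases hN : ∀ i, 0 < N i
    · have hP' : P = {x | ∃ S : Finset (Idx N), x = a + ∑ p ∈ S, v p.1} := by
        rw [hP]
        ext x
        exact prog_eq a v N hN x
      have hPc : P.ncard = (sums (fun p : Idx N => v p.1) Finset.univ).card := by
        have h1 : P = (((sums (fun p : Idx N => v p.1) Finset.univ).image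
            (fun y => a + y) : Finset Z) : Set Z) := by
          ext x
          rw [hP', Finset.mem_coe, Finset.mem_image]
          constructor
          · rintro ⟨S, rfl⟩
            exact ⟨∑ p ∈ S, v p.1, (mem_sums _ _ _).2 ⟨S, Finset.subset_univ _, rfl⟩, rfl⟩
          · rintro ⟨y, hy, rfl⟩
            obtain ⟨S, _, rfl⟩ := (mem_sums _ _ _).1 hy
            exact ⟨S, rfl⟩
        rw [h1, Set.ncard_coe_finset, Finset.card_image_of_injective _ (add_right_injective _)]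
      set A' : Finset L := (AA_finite L).toFinset.filter (fun y => e y ∈ P) with hA'
      have hA'AA : ∀ s ∈ A', s ∈ AA L := fun s hs =>
        (AA_finite L).mem_toFinset.1 (Finset.mem_filter.1 hs).1
      have hA'c : (A ∩ P).ncard = A'.card := by
        have h1 : A ∩ P = ((A'.image e : Finset Z) : Set Z) := by
          ext x
          rw [Finset.mem_coe, Finset.mem_image, hAA]
          constructor
          · rintro ⟨⟨y, hy, rfl⟩, hx⟩
            exact ⟨y, Finset.mem_filter.2 ⟨(AA_finite L).mem_toFinset.2 hy, hx⟩, rfl⟩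
          · rintro ⟨y, hy, rfl⟩
            obtain ⟨h2, h3⟩ := Finset.mem_filter.1 hy
            exact ⟨⟨y, (AA_finite L).mem_toFinset.1 h2, rfl⟩, h3⟩
        rw [h1, Set.ncard_coe_finset, Finset.card_image_of_injOn]
        intro y hy z hz h
        exact heinj (hA'AA y hy) (hA'AA z hz) h
      have hcardS : Fintype.card {i : Fin d // 2 ≤ N i ∧ N i ≤ 2 ^ t} ≤ κ * n := by
        have h1 : Fintype.card {i : Fin d // 2 ≤ N i ∧ N i ≤ 2 ^ t} ≤
            {i : Fin d | 2 ≤ N i ∧ (N i : ℝ) ≤ Real.log K ^ (1 / D)}.ncard := by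
          rw [← Nat.card_eq_fintype_card]
          apply Set.ncard_le_ncard _ (Set.toFinite _)
          intro i hi
          refine ⟨hi.1, le_trans ?_ ht2⟩
          exact_mod_cast hi.2
        have h2 : ((Fintype.card {i : Fin d // 2 ≤ N i ∧ N i ≤ 2 ^ t} : ℕ) : ℝ) ≤
            ((κ * n : ℕ) : ℝ) := by
          push_cast
          refine le_trans ?_ (hshort.trans hDκ)
          exact_mod_cast h1
        exact_mod_cast h2
      have h := hcomp Z htf e (fun y hy h => heinj' y (fun i => (hy i).trans (by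
          have : B ≤ B' := le_max_left _ _
          exact_mod_cast this)) h) d v N hN hcardS a A' hA'AA (fun s hs => by
          have h2 := (Finset.mem_filter.1 hs).2
          rw [hP'] at h2
          exact h2)
      rw [hA'c, hAc, AA_ncard, hPc, Real.rpow_neg hK0.le, ← div_eq_inv_mul,
        le_div_iff₀ (Real.rpow_pos_of_pos hK0 _)]
      refine le_trans ?_ h
      gcongr
    · push Not at hN
      obtain ⟨i, hi⟩ := hN
      have hPe : P = ∅ := by
        rw [hP]
        ext x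
        simp only [Set.mem_ofPred_eq, Set.mem_empty_iff_false, iff_false]
        rintro ⟨k, hk, _⟩
        have := hk i
        omega
      rw [hPe, Set.inter_empty, Set.ncard_empty]
      push_cast
      positivity

end Pool.Agent.Results.MP_86f7a7_co.SharpLogRank
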